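import Mathlib
import Pool.Agent.H14.FNoeth

set_option autoImplicit false

namespace Pool.Agent.Results.MP_f4ff42_al.Counter

open Pool.Agent.H14.FNoeth in
theorem result : ∃ (T : Type) (_ : Semigroup T), CompletelyRegular T ∧ FNoetherian T ∧
    ∀ X : Set T, X.Finite → Subsemigroup.closure X ≠ ⊤ :=
  ⟨S, inferInstance, cr, fn, not_fg⟩

end Pool.Agent.Results.MP_f4ff42_al.Counter
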